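import Pool.Agent.Lib.MP_c2b80f_alE.FnU

/-!
# MP_c2b80f_al: weak commensurability and discreteness for almost simple groups, closed subgroups with a compact Cartan subgroup

Let `G₁ ≤ SL_n(ℂ)`, `G₂ ≤ SL_m(ℂ)` be connected absolutely almost simple algebraic groups (`WCn.AlmostSimple`), and `L ≤ G₂(ℂ)` a closed subgroup (in the usual topology) which has a
compact Cartan subgroup (`HasCompactCartan`): there is a real space `T` of commuting matrices in the Lie algebra of `L` (that is, `exp (t X) ∈ L` for all real `t`) whose one parameter groups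
are bounded and which is its own centraliser in the Lie algebra of `L`.

* `F = ℝ`: if `G₂` is defined over `ℝ`, `L` can be the group `G₂(ℝ)` of the elements with real entries if it has a compact Cartan subgroup. These are the real groups whose rank is equal to the rank of a maximal compact
  subgroup: `SU(p,q)`, `SO(p,q)` with `p q` even, `Sp_{2r}(ℝ)`, `Sp(p,q)`, `SO*(2r)`, many real forms of the exceptional groups, for instance all real forms of `G_2`, `F_4`, `E_7`, `E_8`; and all isogenous groups.
* `F = ℂ`: `L` can be a real form of `G₂(ℂ)` with a compact Cartan subgroup. (A closed Zariski dense subgroup of `G₂(ℂ)` is discrete, or has as Lie algebra a real form of the Lie algebra of `G₂`, or is `G₂(ℂ)`. All real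
  forms of the types `A_1`, `B_r`, `C_r`, `E_7`, `E_8`, `F_4`, `G_2` have compact Cartan subgroups; so for these types the theorem says that `Γ₂` is discrete or dense in `G₂(ℂ)`.)

Then the implication of Q1 holds, with no condition on the discrete group: if `Γ₁ ≤ G₁(ℂ)` (for instance `Γ₁ ≤ G₁(ℝ)` if `G₁` is defined over `ℝ`) is finitely generated, Zariski dense
and discrete, `Γ₂ ≤ L` is finitely generated and Zariski dense in `G₂`, and `Γ₁` and `Γ₂` are weakly commensurable, then `Γ₂` is discrete.

Idea of the proof. Let `Γ₂` be not discrete. The set of the `X` with `exp (t X)` in the closure of `Γ₂` for all `t` is a nonzero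
real subspace of the Lie algebra `𝔩` of `L`, invariant under `Γ₂`. `Γ₂` acts irreducibly on the complex Lie algebra of `G₂`; as `T` is its own centraliser and compact, `𝔩 ∩ i 𝔩 = 0`, and hence this subspace is `𝔩`.
Let `X₀ ∈ T` be regular and small. By the inverse function theorem every element of the closure of `Γ₂` close to `exp X₀` is conjugate by `exp Y`, `Y ∈ 𝔩`, to an element of `exp T`; its eigenvalues are of
absolute value one. By the density of the generic elements `Γ₂` contains a generic element `γ` close to `exp X₀` (see `LogExprAlmostSimple`). Let `h ∈ Γ₁` be weakly commensurable to `γ`, of infinite order. As `γ` is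
generic and the ranks are equal, some powers of the eigenvalues of `h` are products of the eigenvalues of `γ` and thus of absolute value one. So the powers of
the semisimple element `h` stay in a compact set. As `Γ₁` is discrete `h` has finite order: contradiction.
-/

open Matrix

namespace Pool.Agent.Results.MP_c2b80f_al.CompactCartan

open WCn

/-- `X` is in the Lie algebra of `L`: `exp (t X) ∈ L` for all real `t`. -/
def InLie {m : ℕ} (L : Subgroup (SLC m)) (X : Matrix (Fin m) (Fin m) ℂ) : Prop :=
  ∀ t : ℝ, ∃ g ∈ L, g.1 = NormedSpace.exp ((t : ℂ) • X)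

/-- The closed group `L` has a compact Cartan subgroup, with Lie algebra `T`: `T` is a commutative subalgebra of the Lie algebra of `L`, its one parameter groups `exp (t X)` are bounded, and
every element of the Lie algebra of `L` which commutes with `T` is in `T`. -/
def HasCompactCartan {m : ℕ} (L : Subgroup (SLC m)) : Prop :=
  ∃ T : Submodule ℝ (Matrix (Fin m) (Fin m) ℂ), (∀ X ∈ T, InLie L X) ∧ (∀ X ∈ T, ∀ Y ∈ T, X * Y = Y * X) ∧
    (∀ X ∈ T, ∃ C : ℝ, ∀ (t : ℝ) (i j : Fin m), ‖(NormedSpace.exp ((t : ℂ) • X)) i j‖ ≤ C) ∧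
    ∀ X, InLie L X → (∀ Y ∈ T, X * Y = Y * X) → X ∈ T

/-- Let `G₁ ≤ SL_n(ℂ)`, `G₂ ≤ SL_m(ℂ)` be connected absolutely almost simple algebraic groups and `L` a closed subgroup of `G₂(ℂ)` with a compact Cartan subgroup, for instance `L = G₂(ℝ)`. Let `Γ₁ ≤ G₁(ℂ)` be finitely
generated, Zariski dense and discrete, `Γ₂ ≤ L` finitely generated and Zariski dense in `G₂`. If every semisimple element of infinite order of `Γ₁` is weakly commensurable to a semisimple element of infinite
order of `Γ₂`, and conversely, then `Γ₂` is discrete. -/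
theorem result (n m : ℕ) (G₁ : Subgroup (SLC n)) (G₂ : Subgroup (SLC m)) (hG₁ : AlmostSimple G₁) (hG₂ : AlmostSimple G₂)
    (L : Subgroup (SLC m)) (hL : L ≤ G₂) (hLc : IsClosed (L : Set (SLC m))) (hT : HasCompactCartan L)
    (Γ₁ : Subgroup (SLC n)) (Γ₂ : Subgroup (SLC m))
    (h₁ : Γ₁.FG) (hd₁ : DiscreteTopology Γ₁) (hz₁ : ZDenseIn G₁ Γ₁)
    (h₂ : Γ₂.FG) (hL₂ : Γ₂ ≤ L) (hz₂ : ZDenseIn G₂ Γ₂)
    (hwc₁ : ∀ g ∈ Γ₁, IsSs g → ¬ IsOfFinOrder g → ∃ h ∈ Γ₂, IsSs h ∧ ¬ IsOfFinOrder h ∧ WComm g h)
    (hwc₂ : ∀ h ∈ Γ₂, IsSs h → ¬ IsOfFinOrder h → ∃ g ∈ Γ₁, IsSs g ∧ ¬ IsOfFinOrder g ∧ WComm h g) :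
    DiscreteTopology Γ₂ := by
  obtain ⟨T, hT1, hT2, hT3, hT4⟩ := hT
  exact final_cptL n m G₁ G₂ hG₁ hG₂ L hL hLc T hT1 hT2 hT3 hT4 Γ₁ Γ₂ h₁ hd₁ hz₁ h₂ hL₂ hz₂ hwc₁ hwc₂

end Pool.Agent.Results.MP_c2b80f_al.CompactCartan
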