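import Pool.Agent.Lib.MP_c2b80f_alB.FinalA1
import Pool.Agent.Lib.MP_c2b80f_alB.GF

/-!
# MP_c2b80f_al: weak commensurability and discreteness, type `A_1` over the complex numbers, geometrically finite `Γ₁`

The connected absolutely almost simple groups of type `A_1` over `ℂ` are `SL_2` and `PGL_2`. Let `G₁`, `G₂` be any two of
these. Let `Γ₁` be a subgroup of `G₁(ℂ)` whose preimage in `SL_2(ℂ)` is contained in a geometrically finite group (for
example any lattice or any convex cocompact group, or any subgroup of such a group), and let `Γ₂` be a finitely generated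
subgroup of `G₂(ℂ)` without invariant line (for example a Zariski dense one, `MPc2b80f.noLine_of_zDense`). If every
semisimple element of infinite order of `Γ₂` is weakly commensurable to a semisimple element of infinite order of `Γ₁`, then
`Γ₂` is discrete.

Idea of the proof. Let `R` be the ring generated over `ℚ` by the entries of finitely many matrices. A geometrically finite
group is logarithmically generated: every `γ` is a product of elements of a finite set and of powers `u ^ n` of finitely
many parabolic elements with total cost `∑ (1 + log (1 + |n|)) ≤ C (1 + log ‖γ‖)` (`logGen_of_geomFinite`). Hence for every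
ring homomorphism `φ : R → ℂ` and every nonarchimedean multiplicative seminorm `N` of `R` the sizes of the eigenvalues of
`φ γ` are bounded by powers of the size of the eigenvalue `λ` of `γ`, with an exponent which is logarithmic in the
sizes of the entries. Weak commensurability carries this to `Γ₂`. If `Γ₂` were not discrete, it would have elements with
infinitely many different traces near `2`; these traces `t` satisfy `|φ t| ≤ 2 (3 + ∑ |φ e|) ^ ε` with `ε` small for all
`φ`, so they are algebraic (Noether normalisation and Liouville's theorem), and then they lie in a finite set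
(integrality at finitely many primes, conjugates bounded).
-/

open Matrix MatrixGroups

namespace Pool.Agent.Results.MP_c2b80f_al.GeometricallyFiniteA1

open MPc2b80f

/-- Let `F₁`, `F₂` be `SL_2` or `PGL_2` over `ℂ`, `Γ₁` a subgroup of `F₁(ℂ)` whose preimage in `SL_2(ℂ)` is contained in a
geometrically finite group, `Γ₂` a finitely generated subgroup of `F₂(ℂ)` without invariant line, such that every
semisimple element of infinite order of `Γ₂` is weakly commensurable to a semisimple element of infinite order of
`Γ₁`. Then `Γ₂` is discrete. -/
theorem result (F₁ F₂ : Form) (Γ₁ : Subgroup F₁.Pts) (Γ₂ : Subgroup F₂.Pts)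
    (h₁ : ∃ Λ : Subgroup SL(2, ℂ), up F₁ Γ₁ ≤ Λ ∧ GeomFinite Λ)
    (h₂ : Γ₂.FG) (hz : NoLine (up F₂ Γ₂))
    (hwc : ∀ g ∈ Γ₂, IsSs F₂ g → ¬ IsOfFinOrder g →
      ∃ h ∈ Γ₁, IsSs F₁ h ∧ ¬ IsOfFinOrder h ∧ WeakComm F₂ F₁ g h) :
    IsDiscr F₂ Γ₂ := by
  obtain ⟨Λ, hle, hΛ⟩ := h₁
  obtain ⟨S, T, C, hT, hC⟩ := logGen_of_geomFinite Λ hΛ
  exact final_A1 F₁ F₂ Γ₁ Γ₂ ⟨S, T, C, hT, fun g hg => hC g (hle hg)⟩ h₂ hz hwc

end Pool.Agent.Results.MP_c2b80f_al.GeometricallyFiniteA1
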