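import Pool.Agent.Lib.MP_c2b80f_alE.ZaD
import Pool.Agent.Lib.MP_c2b80f_alC.ExA

/-!
# MP_c2b80f_al: weak commensurability and discreteness for all almost simple groups, limits of groups with logarithmic expressions

Let `G₁ ≤ SL_n(ℂ)`, `G₂ ≤ SL_m(ℂ)` be connected absolutely almost simple algebraic groups (`WCn.AlmostSimple`): Zariski closed, connected, not commutative, and
every Zariski closed normal subgroup is finite or everything. (Every connected absolutely almost simple linear algebraic group over `ℂ` is of this form: it has a faithful
rational representation, and it is perfect.)

A group `Λ ≤ SL_n(ℂ)` has logarithmic expressions (`WCn.LogExpr`) if for a finite set `𝒳` of complex matrices every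
`g ∈ Λ` is a product of integral linear combinations of the matrices in `𝒳`, of total cost `∑ (1 + log (1 + ∑ |c|)) ≤ C (1 + log ‖g‖)`. (Finitely generated
groups with word length `≤ C (1 + log ‖g‖)`, that is quasi-isometrically embedded groups, for instance Anosov groups and lattices in groups of rank at least `2`
(Lubotzky, Mozes, Raghunathan), have this property: `WCn.logExpr_of_words`; also all groups of matrices with entries in the ring of integers of an
imaginary quadratic field or in `ℤ`: `WCn.logExpr_of_lattice`.)

Let `Γ₁ ≤ G₁(ℂ)` be Zariski dense, and a limit of groups with logarithmic expressions in the following sense: for every finite set `A` of complex numbers and every `ε > 0` there is an automorphism `σ`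
of the field `ℂ` (not continuous in general) which moves the elements of `A` by less than `ε` such that the group `σ(Γ₁)`, obtained by applying `σ` to the entries, is contained in a group with logarithmic expressions.
The case `σ = id` is allowed: every subgroup `Γ₁` of a group with logarithmic expressions is included. Other examples: let `V` be an irreducible affine variety over a subfield `k` of `ℂ` which is algebraic over `ℚ`, and `ρ_v`, `v ∈ V(ℂ)`, an algebraic family over `k` of
representations of a finitely generated group. If `v` is a generic point of `V` over `k` (that is, not in one of the countably many proper subvarieties over `k`) and in the closure of a nonempty open subset `O` of `V(ℂ)` such that the groups `ρ_u`, `u ∈ O`,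
have logarithmic expressions, then every neighbourhood of `v` contains generic points `u ∈ O`, and the embedding of `k(v)` in `ℂ` given by `v ↦ u` extends to an automorphism of `ℂ` (which moves the elements of any given finite set little if `u` is close to `v`). For instance geometrically infinite
Kleinian groups: by the density theorem every point of the boundary of the open set of convex cocompact representations is such a limit if it is generic.

Let `Γ₂ ≤ G₂(ℂ)` be finitely generated and Zariski dense. If `Γ₁` and `Γ₂` are weakly commensurable, then `Γ₂` is discrete.

The real case is contained in this: if `G_i` is defined over `ℝ`, then `G_i(ℝ)` is a closed subgroup of `G_i(ℂ)`, Zariski dense subgroups of `G_i(ℝ)`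
are Zariski dense in `G_i(ℂ)`, and weakly commensurable elements of `G_i(ℝ)` are weakly commensurable in `G_i(ℂ)`.

The tori: a semisimple element `g` of `G ≤ SL_m` is in a maximal torus `T` of `G`, `T` is contained in a maximal
torus `T'` of `SL_m`, and the characters of `T` are the restrictions of the characters of `T'`. The values at `g` of all the characters of
maximal tori of `SL_m` containing `g` depend only on the eigenvalues of `g`. So weak commensurability for `G` is `WCn.WComm`.

Idea of the proof. (1) The case `σ = id`. Suppose that `Γ₂` is not discrete, with entries in a finitely generated ring `A`. Then it contains elements `γ`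
arbitrarily close to `1` which are generic: modulo a space `S₀` of relations of dimension `m - r` (`r` the rank of `G₂`) the symmetries of the eigenvalues of
`γ` together with the roots of a given polynomial over `A` are irreducible and have only one invariant quadratic form. To prove this uniformly in the type of `G₂` let `W` be the Weyl
group. For every `w ∈ W` choose an embedding `σ` of `A` in `ℤ_p`, `p` large; the closure of `Γ₂` in the `p`-adic group contains a congruence subgroup, so there is `γ ∈ Γ₂` close to `1` which is
`≡ 1 + p^k (e + s(H))` for all these embeddings, where `e + s(H)` is the point of the Kostant section (defined over the field with `p` elements) which is conjugate to a regular element `H` of the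
Cartan subalgebra over the algebraic closure with `Frob(H) = w H`. A group version of Hensel's lemma over the ring `O` of Witt vectors shows that `γ` is conjugate by an element of `G₂(O)`
to an element of the split torus on which the Frobenius of `O` acts by `w`; extend it to an automorphism of `ℂ`. The logarithms, ranks and the Weyl group action on the relations are treated
with the Lie algebra of `G₂` (the one parameter groups of tangent vectors are in `G₂`; simplicity of the Lie algebra; root systems of Mathlib; integrality of the weights of the given representation).
Let `h ∈ Γ₁` be weakly commensurable to `γ`, with eigenvalues `x i`, `y j`. Then the ranks are equal and there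
is `β > 0` with `∑ w(x i)² = β ∑ w(y j)²` for all homomorphisms `w` from the multiplicative group to `ℝ`, in particular for `w = log N`,
`N` any absolute value. As `Λ` has logarithmic expressions `log N (x i) ≤ C₁ log (2 + ∑ N(a)) log ρ` where `ρ` is the spectral radius
of `h` and `a` runs through the generators of `A`. So all `log N (y j)` are at most `δ C log (2 + ∑ N(a))`, with `δ → 0` for `γ → 1`: the coefficients
of the characteristic polynomial of `γ` are then in a finite set, and `γ → 1` forces it to be `(T - 1)^m`: contradiction.

(2) The general case. The group `σ(G)` is almost simple for every automorphism `σ`. (The only problem is to show that it is connected: `G` is generated by the exponentials of the nilpotent elements `N` of its Lie algebra, because these span it, and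
`σ(exp N) = exp(σ(N))` as `exp` of a nilpotent matrix is a polynomial with rational coefficients; `exp(z σ(N)) ∈ σ(G)` for all `z ∈ ℂ`.) Weak commensurability is preserved. If `Γ₂` is not discrete, then for every `δ > 0` there is a finite set `S` of elements
of `Γ₂` closer to `1` than `δ` such that only the finite centre of `G₂` commutes with `S`. If `σ` moves the entries of the elements of `S` and of the centre little, then `σ(Γ₂)` is not discrete: otherwise let `y ≠ 1` be an element of `σ(Γ₂)` with `|y - 1| < δ` and almost minimal; the
commutators of `y` with the elements of `σ(S)` are closer to `1` (factor `1/2`), so they are `1`, and `y` is in the centre of `σ(G₂)`, which is not possible. Now (1) for `σ(Γ₁)`, `σ(Γ₂)` gives the result.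
-/

namespace Pool.Agent.Results.MP_c2b80f_al.LogExprLimits

open WCn

/-- Let `G₁ ≤ SL_n(ℂ)`, `G₂ ≤ SL_m(ℂ)` be connected absolutely almost simple algebraic groups. Let `Γ₁ ≤ G₁(ℂ)` be
Zariski dense, such that for every finite set `A` of complex numbers and every `ε > 0` there are an automorphism `σ` of the field `ℂ` with `|σ(a) - a| < ε` for `a ∈ A` and a group `Λ` with logarithmic expressions
which contains the group `σ(Γ₁)` (`σ` is applied to the entries of the matrices). Let `Γ₂ ≤ G₂(ℂ)` be finitely generated and Zariski
dense. If every semisimple element of infinite order of `Γ₁` is weakly commensurable to a semisimple element of infinite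
order of `Γ₂`, and conversely, then `Γ₂` is discrete. -/
theorem result (n m : ℕ) (G₁ : Subgroup (SLC n)) (G₂ : Subgroup (SLC m)) (hG₁ : AlmostSimple G₁) (hG₂ : AlmostSimple G₂)
    (Γ₁ : Subgroup (SLC n)) (Γ₂ : Subgroup (SLC m))
    (h₁ : ∀ (A : Finset ℂ) (ε : ℝ), 0 < ε → ∃ σ : ℂ ≃+* ℂ, (∀ a ∈ A, ‖σ a - a‖ < ε) ∧
      ∃ Λ : Subgroup (SLC n), Γ₁.map (sgm σ) ≤ Λ ∧ LogExpr Λ)
    (hz₁ : ZDenseIn G₁ Γ₁) (h₂ : Γ₂.FG) (hz₂ : ZDenseIn G₂ Γ₂)
    (hwc₁ : ∀ g ∈ Γ₁, IsSs g → ¬ IsOfFinOrder g → ∃ h ∈ Γ₂, IsSs h ∧ ¬ IsOfFinOrder h ∧ WComm g h)
    (hwc₂ : ∀ h ∈ Γ₂, IsSs h → ¬ IsOfFinOrder h → ∃ g ∈ Γ₁, IsSs g ∧ ¬ IsOfFinOrder g ∧ WComm h g) :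
    DiscreteTopology Γ₂ :=
  final_logLim n m G₁ G₂ hG₁ hG₂ Γ₁ Γ₂ h₁ hz₁ h₂ hz₂ hwc₁ hwc₂

end Pool.Agent.Results.MP_c2b80f_al.LogExprLimits
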